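import Mathlib
import Pool.Agent.H15.TF3

set_option autoImplicit false

namespace Pool.Agent.Results.MP_a721b7_an.Char

/-- `a` and `b` are joined avoiding `c`: there are `a = y₀, y₁, …, yₙ = b` (`n ≥ 1`) such that
each consecutive pair `yᵢ, yᵢ₊₁` lies in a common set `R(x)` that does not contain `c`. -/
def Joined {X : Type} (R : X → X → Prop) (c a b : X) : Prop :=
  Relation.TransGen (fun u v => ∃ x, R x u ∧ R x v ∧ ¬ R x c) a b

/-- `R` is three-function representable iff (i) there is no asteroidal triple and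
(ii) some countable `D ⊆ X` has, whenever `y ∈ R(x)`, elements `d₁, d₂` with
`y ∈ R(d₁) ∩ R(d₂) ⊆ R(x)`. -/
theorem result (X : Type) (R : X → X → Prop) :
    (∃ f g h : X → ℝ, ∀ x y, R x y ↔ f x < g y ∧ g y < h x) ↔
    ((∀ a b c, ¬ (Joined R c a b ∧ Joined R a b c ∧ Joined R b c a)) ∧
      ∃ D : Set X, D.Countable ∧ ∀ x y, R x y →
        ∃ d₁ ∈ D, ∃ d₂ ∈ D, R d₁ y ∧ R d₂ y ∧ ∀ z, R d₁ z → R d₂ z → R x z) :=
  Pool.Agent.H15.TF.main R

end Pool.Agent.Results.MP_a721b7_an.Char
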